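import Mathlib
import Pool.Agent.Helper65.KH.Goals

/-!
# Project KH (MP_20ee5e_ag): packet W4, exponents of the products
-/

set_option autoImplicit false

open MvPolynomial

namespace Pool.Agent.Helper40.KH.W4

open Pool.Agent.Helper65.KH

lemma mon_eq {ι : Type} [Fintype ι] (p : ι → ℕ) :
    mon p = monomial (Finsupp.equivFunOnFinite.symm p) (1 : ℚ) := by
  rw [monomial_eq, Finsupp.prod_fintype _ _ (fun i => pow_zero _)]
  simp [mon]

/-- an exponent of a combination of monomials -/
lemma mem_supp_sum {ι : Type} [Fintype ι] (V : Finset (ι → ℕ)) (c : (ι → ℕ) → ℚ)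
    (g : (ι → ℕ) → (ι → ℕ)) (p : ι →₀ ℕ)
    (hp : p ∈ (∑ v ∈ V, c v • mon (g v)).support) : ∃ v ∈ V, c v ≠ 0 ∧ ∀ i, p i = g v i := by
  classical
  have h1 := MvPolynomial.support_sum hp
  rw [Finset.mem_biUnion] at h1
  obtain ⟨v, hv, h2⟩ := h1
  refine ⟨v, hv, ?_, ?_⟩
  · intro h0
    rw [h0, zero_smul] at h2
    simp at h2
  · have h3 := MvPolynomial.support_smul h2
    rw [mon_eq] at h3
    have h4 := MvPolynomial.support_monomial_subset h3
    rw [Finset.mem_singleton] at h4
    intro i
    rw [h4]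
    rfl

lemma w_nonneg {ι : Type} [Fintype ι] [DecidableEq ι] (V : Finset (ι → ℕ)) (hC : Cn V)
    (w : ι → ℝ) (hw : w ∈ LL V) (i : ι) : 0 ≤ w i := by
  obtain ⟨m, hm, hmV⟩ := hC.2 i
  have h1 := hw _ hmV
  have h2 : dt w (cv (Pi.single i m : ι → ℕ)) = w i * m := by
    unfold dt cv
    rw [Finset.sum_eq_single i]
    · simp
    · intro j _ hj
      simp [hj]
    · intro h
      exact absurd (Finset.mem_univ i) h
  rw [h2] at h1
  have h3 : (0 : ℝ) < m := by exact_mod_cast hm
  by_contra h4
  rw [not_le] at h4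
  have := mul_neg_of_neg_of_pos h4 h3
  linarith

/-- one letter -/
lemma letter {ι : Type} [Fintype ι] [DecidableEq ι] (V : Finset (ι → ℕ)) (D : ℕ) (i0 : ι)
    (t : ι × ι × ι → ℚ) (hC : Cn V) (hT : Th V D) (j l : ι) (p : ι →₀ ℕ)
    (hp : p ∈ (lett V D i0 t j l).support) (w : ι → ℝ) (hw : w ∈ LL V) :
    1 ≤ (∑ i, w i * (p i : ℝ)) + w l * (if l = i0 then 0 else (D : ℝ)) := by
  classical
  have h1 := MvPolynomial.support_sum hp
  rw [Finset.mem_biUnion] at h1
  obtain ⟨r, -, h2⟩ := h1
  have h3 := MvPolynomial.support_smul h2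
  have hD : 0 ≤ w l * (if l = i0 then 0 else (D : ℝ)) := by
    apply mul_nonneg (w_nonneg V hC w hw l)
    split_ifs
    · exact le_refl _
    · exact Nat.cast_nonneg _
  unfold el at h3
  by_cases hr : r = l ∧ l ≠ i0
  · rw [if_pos hr] at h3
    obtain ⟨v, hv, hc, hpi⟩ := mem_supp_sum V (fun v => (v l : ℚ))
      (fun v k => if k = l then v k - D else v k) p h3
    have hvl : v l ≠ 0 := by
      intro h0
      apply hc
      simp [h0]
    have hDv := hT v hv l hvl
    have h4 := hw v hv
    have h5 : dt w (cv v) = (∑ i, w i * (p i : ℝ)) + w l * (if l = i0 then 0 else (D : ℝ)) := by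
      rw [if_neg hr.2]
      unfold dt cv
      have h6 : ∀ i, w i * (v i : ℝ) = w i * (p i : ℝ) + if i = l then w l * (D : ℝ) else 0 := by
        intro i
        rw [hpi i]
        by_cases hi : i = l
        · subst hi
          rw [if_pos rfl, if_pos rfl, Nat.cast_sub hDv]
          ring
        · rw [if_neg hi, if_neg hi, add_zero]
      rw [Finset.sum_congr rfl (fun i _ => h6 i), Finset.sum_add_distrib]
      congr 1
      rw [Finset.sum_ite_eq' Finset.univ l]
      simp
    rw [← h5]
    exact h4
  · rw [if_neg hr] at h3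
    obtain ⟨v, hv, -, hpi⟩ := mem_supp_sum V (fun v => (v r : ℚ)) (fun v => v) p h3
    have h4 := hw v hv
    have h5 : dt w (cv v) = ∑ i, w i * (p i : ℝ) := by
      unfold dt cv
      apply Finset.sum_congr rfl
      intro i _
      rw [hpi i]
    rw [h5] at h4
    linarith

theorem t : S_W4 := by
  intro ι _ _ V D i0 t hC hT j p hp
  classical
  refine ⟨fun i => Nat.cast_nonneg _, ?_⟩
  intro w hw
  have key : ∀ (s : Finset ι) (p : ι →₀ ℕ), p ∈ (∏ l ∈ s, lett V D i0 t j l).support →
      (s.card : ℝ) ≤ (∑ i, w i * (p i : ℝ)) + ∑ l ∈ s, w l * (if l = i0 then 0 else (D : ℝ)) := by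
    intro s
    induction s using Finset.induction_on with
    | empty =>
      intro p hp
      rw [Finset.prod_empty] at hp
      have h0 : p = 0 := by
        have h1 : p ∈ (monomial 0 (1 : ℚ)).support := hp
        have h2 := MvPolynomial.support_monomial_subset h1
        rwa [Finset.mem_singleton] at h2
      rw [h0]
      simp
    | insert a s ha ih =>
      intro p hp
      rw [Finset.prod_insert ha] at hp
      have h1 := MvPolynomial.support_mul _ _ hp
      rw [Finset.mem_add] at h1
      obtain ⟨y, hy, q, hq, hyq⟩ := h1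
      have h2 := letter V D i0 t hC hT j a y hy w hw
      have h3 := ih q hq
      have h4 : (∑ i, w i * (p i : ℝ)) = (∑ i, w i * (y i : ℝ)) + ∑ i, w i * (q i : ℝ) := by
        rw [← Finset.sum_add_distrib]
        apply Finset.sum_congr rfl
        intro i _
        rw [← hyq, Finsupp.add_apply]
        push_cast
        ring
      rw [Finset.card_insert_of_notMem ha, Finset.sum_insert ha, h4]
      push_cast
      linarith
  have h1 := key Finset.univ p hp
  rw [Finset.card_univ, ← Finset.sum_add_distrib] at h1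
  refine h1.trans (le_of_eq ?_)
  apply Finset.sum_congr rfl
  intro i _
  ring

end Pool.Agent.Helper40.KH.W4
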